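import Mathlib

/-!
# The line graph of the Tutte-Coxeter graph: data

The 45 vertices are the flags (duad, syntheme) of the set of six elements; two flags are adjacent if they
have the duad or the syntheme in common. `pA`, `pB` generate the automorphism group of order 1440.
-/

set_option autoImplicit false

namespace Pool.Agent.T2h44.SY

/-- the 45 vertices -/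
abbrev V : Type := Fin 45

/-- the neighbours of the vertices, as sums of powers of two -/
def masks : List ℕ := [4398180728838, 550829555717, 77309411331, 8796093284400, 1099513724968, 137455730712, 17592186077568, 17184063808, 2181038272, 2199023324160, 34360265216, 335545856, 274878062592, 4296036352, 545271808, 17592186241088, 2199023419904, 274878009344, 8796094595080, 34361050112, 4295761920, 1099524210704, 17190355072, 543178752, 137539616800, 2231369984, 318769152, 4398851817473, 738199552, 411058176, 556198264834, 5402263808, 3222282240, 120259084292, 42953867392, 25770329088, 420906795012, 343614160928, 206158565376, 3299608625154, 2748781166608, 1649267507712, 26388413284353,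 21990232817672, 13194139566144]

/-- adjacency in the line graph of the Tutte-Coxeter graph -/
def adj (a b : V) : Prop := (masks.getD a 0).testBit b = true

instance : DecidableRel adj := fun a b => inferInstanceAs (Decidable ((masks.getD a 0).testBit b = true))

/-- the map with the given list of values -/
def app (l : List ℕ) (a : V) : V := Fin.ofNat 45 (l.getD a 0)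

def lA : List ℕ := [23, 14, 29, 5, 37, 24, 39, 1, 30, 15, 44, 6, 10, 19, 35, 41, 16, 9, 3, 43, 18, 36, 2, 33, 25, 31, 8, 22, 7, 34, 13, 32, 20, 27, 0, 42, 28, 26, 11, 12, 38, 17, 21, 4, 40]
def lA' : List ℕ := [34, 7, 22, 18, 43, 3, 11, 28, 26, 17, 12, 38, 39, 30, 1, 9, 16, 41, 20, 13, 32, 42, 27, 0, 5, 24, 37, 33, 36, 2, 8, 25, 31, 23, 29, 14, 21, 4, 40, 6, 44, 15, 35, 19, 10]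
def lB : List ℕ := [36, 2, 33, 26, 28, 11, 4, 21, 40, 44, 6, 15, 20, 32, 13, 3, 43, 18, 25, 8, 31, 29, 23, 14, 9, 41, 16, 38, 17, 12, 1, 39, 30, 34, 22, 7, 35, 10, 19, 0, 27, 42, 37, 24, 5]
def lB' : List ℕ := [39, 30, 1, 15, 6, 44, 10, 35, 19, 24, 37, 5, 29, 14, 23, 11, 26, 28, 17, 38, 12, 7, 34, 22, 43, 18, 3, 40, 4, 21, 32, 20, 13, 2, 33, 36, 0, 42, 27, 31, 8, 25, 41, 16, 9]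
def lH : List ℕ := [39, 40, 41, 8, 7, 6, 20, 19, 18, 29, 28, 27, 38, 37, 36, 13, 14, 12, 25, 26, 24, 34, 35, 33, 44, 43, 42, 1, 0, 2, 4, 3, 5, 9, 10, 11, 16, 15, 17, 21, 22, 23, 30, 31, 32]
def lH' : List ℕ := [28, 27, 29, 31, 30, 32, 5, 4, 3, 33, 34, 35, 17, 15, 16, 37, 36, 38, 8, 7, 6, 39, 40, 41, 20, 18, 19, 11, 10, 9, 42, 43, 44, 23, 21, 22, 14, 13, 12, 0, 1, 2, 26, 25, 24]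
def lS : List ℕ := [0, 27, 42, 38, 12, 17, 35, 19, 10, 21, 4, 40, 8, 25, 31, 34, 22, 7, 37, 5, 24, 13, 20, 32, 16, 9, 41, 1, 39, 30, 28, 11, 26, 43, 18, 3, 44, 15, 6, 29, 14, 23, 2, 36, 33]
def lS' : List ℕ := [0, 27, 42, 35, 10, 19, 38, 17, 12, 25, 8, 31, 4, 21, 40, 37, 24, 5, 34, 7, 22, 9, 16, 41, 20, 13, 32, 1, 30, 39, 29, 14, 23, 44, 15, 6, 43, 18, 3, 28, 11, 26, 2, 33, 36]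

/-- first generator of the automorphism group -/
def pA : Equiv.Perm V where
  toFun := app lA
  invFun := app lA'
  left_inv := by unfold Function.LeftInverse; decide +kernel
  right_inv := by unfold Function.RightInverse Function.LeftInverse; decide +kernel

/-- second generator of the automorphism group -/
def pB : Equiv.Perm V where
  toFun := app lB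
  invFun := app lB'
  left_inv := by unfold Function.LeftInverse; decide +kernel
  right_inv := by unfold Function.RightInverse Function.LeftInverse; decide +kernel

/-- an automorphism which maps the butterfly into one region -/
def pH : Equiv.Perm V where
  toFun := app lH
  invFun := app lH'
  left_inv := by unfold Function.LeftInverse; decide +kernel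
  right_inv := by unfold Function.RightInverse Function.LeftInverse; decide +kernel

/-- an automorphism which fixes `0` and moves one vertex in each distance from `0` -/
def pS : Equiv.Perm V where
  toFun := app lS
  invFun := app lS'
  left_inv := by unfold Function.LeftInverse; decide +kernel
  right_inv := by unfold Function.RightInverse Function.LeftInverse; decide +kernel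

/-- the colouring with three colours, an idempotent map onto a triangle -/
def col : V → V := app [0, 1, 2, 0, 2, 1, 2, 0, 1, 1, 0, 2, 1, 2, 0, 1, 0, 2, 2, 1, 0, 0, 2, 1, 0, 2, 1, 1, 0, 2, 2, 0, 1, 0, 1, 2, 1, 2, 0, 0, 1, 2, 2, 1, 0]

/-- the idempotent endomorphism of rank five onto a butterfly (two triangles with a common vertex) -/
def fly : V → V := app [0, 1, 2, 0, 2, 1, 2, 0, 1, 1, 0, 2, 1, 2, 0, 1, 0, 2, 42, 27, 0, 0, 42, 27, 0, 2, 1, 27, 0, 42, 2, 0, 1, 0, 27, 42, 1, 2, 0, 0, 1, 2, 42, 27, 0]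

/-- the triangle -/
def tri : Finset V := {0, 1, 2}

/-- the butterfly -/
def but : Finset V := {0, 1, 2, 27, 42}

/-- distances -/
def dstT : List (List ℕ) := [
    [0, 1, 1, 3, 4, 4, 3, 4, 4, 4, 4, 3, 4, 4, 3, 3, 4, 4, 3, 4, 4, 4, 4, 3, 4, 4, 3, 1, 2, 2, 2, 3, 3, 2, 3, 3, 2, 3, 3, 2, 3, 3, 1, 2, 2],
    [1, 0, 1, 4, 3, 4, 4, 4, 3, 3, 4, 4, 4, 3, 4, 4, 3, 4, 4, 4, 3, 3, 4, 4, 4, 3, 4, 2, 3, 3, 1, 2, 2, 2, 3, 3, 2, 3, 3, 1, 2, 2, 2, 3, 3],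
    [1, 1, 0, 4, 4, 3, 4, 3, 4, 4, 3, 4, 3, 4, 4, 4, 4, 3, 4, 3, 4, 4, 3, 4, 3, 4, 4, 2, 3, 3, 2, 3, 3, 1, 2, 2, 1, 2, 2, 2, 3, 3, 2, 3, 3],
    [3, 4, 4, 0, 1, 1, 3, 4, 4, 4, 3, 4, 4, 3, 4, 3, 4, 4, 1, 2, 2, 2, 3, 3, 2, 3, 3, 3, 4, 4, 4, 4, 3, 4, 4, 3, 3, 2, 3, 3, 2, 3, 2, 1, 2],
    [4, 3, 4, 1, 0, 1, 4, 3, 4, 3, 4, 4, 4, 4, 3, 4, 3, 4, 2, 3, 3, 1, 2, 2, 2, 3, 3, 4, 4, 3, 3, 4, 4, 4, 3, 4, 3, 2, 3, 2, 1, 2, 3, 2, 3],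
    [4, 4, 3, 1, 1, 0, 4, 4, 3, 4, 4, 3, 3, 4, 4, 4, 4, 3, 2, 3, 3, 2, 3, 3, 1, 2, 2, 4, 3, 4, 4, 3, 4, 3, 4, 4, 2, 1, 2, 3, 2, 3, 3, 2, 3],
    [3, 4, 4, 3, 4, 4, 0, 1, 1, 3, 4, 4, 3, 4, 4, 1, 2, 2, 3, 4, 4, 3, 2, 3, 3, 2, 3, 3, 4, 4, 3, 2, 3, 3, 2, 3, 4, 4, 3, 4, 4, 3, 2, 2, 1],
    [4, 4, 3, 4, 3, 4, 1, 0, 1, 4, 3, 4, 4, 4, 3, 2, 3, 3, 4, 3, 4, 2, 1, 2, 3, 2, 3, 4, 4, 3, 3, 2, 3, 2, 1, 2, 3, 4, 4, 4, 3, 4, 3, 3, 2],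
    [4, 3, 4, 4, 4, 3, 1, 1, 0, 4, 4, 3, 4, 3, 4, 2, 3, 3, 4, 4, 3, 3, 2, 3, 2, 1, 2, 4, 3, 4, 2, 1, 2, 3, 2, 3, 4, 3, 4, 3, 4, 4, 3, 3, 2],
    [4, 3, 4, 4, 3, 4, 3, 4, 4, 0, 1, 1, 3, 4, 4, 2, 1, 2, 3, 2, 3, 3, 4, 4, 3, 3, 2, 3, 2, 3, 3, 4, 4, 3, 3, 2, 4, 4, 3, 2, 2, 1, 4, 4, 3],
    [4, 4, 3, 3, 4, 4, 4, 3, 4, 1, 0, 1, 4, 3, 4, 3, 2, 3, 2, 1, 2, 4, 3, 4, 3, 3, 2, 3, 2, 3, 4, 4, 3, 2, 2, 1, 3, 4, 4, 3, 3, 2, 4, 3, 4],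
    [3, 4, 4, 4, 4, 3, 4, 4, 3, 1, 1, 0, 4, 4, 3, 3, 2, 3, 3, 2, 3, 4, 4, 3, 2, 2, 1, 2, 1, 2, 4, 3, 4, 3, 3, 2, 4, 3, 4, 3, 3, 2, 3, 4, 4],
    [4, 4, 3, 4, 4, 3, 3, 4, 4, 3, 4, 4, 0, 1, 1, 2, 2, 1, 3, 3, 2, 3, 3, 2, 3, 4, 4, 3, 3, 2, 3, 3, 2, 3, 4, 4, 2, 2, 1, 4, 4, 3, 4, 4, 3],
    [4, 3, 4, 3, 4, 4, 4, 4, 3, 4, 3, 4, 1, 0, 1, 3, 3, 2, 2, 2, 1, 3, 3, 2, 4, 3, 4, 3, 3, 2, 2, 2, 1, 4, 4, 3, 3, 3, 2, 3, 4, 4, 4, 3, 4],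
    [3, 4, 4, 4, 3, 4, 4, 3, 4, 4, 4, 3, 1, 1, 0, 3, 3, 2, 3, 3, 2, 2, 2, 1, 4, 4, 3, 2, 2, 1, 3, 3, 2, 4, 3, 4, 3, 3, 2, 4, 3, 4, 3, 4, 4],
    [3, 4, 4, 3, 4, 4, 1, 2, 2, 2, 3, 3, 2, 3, 3, 0, 1, 1, 3, 4, 4, 4, 3, 4, 4, 3, 4, 3, 4, 4, 4, 3, 4, 4, 3, 4, 3, 3, 2, 3, 3, 2, 2, 2, 1],
    [4, 3, 4, 4, 3, 4, 2, 3, 3, 1, 2, 2, 2, 3, 3, 1, 0, 1, 4, 3, 4, 3, 4, 4, 4, 4, 3, 4, 3, 4, 3, 4, 4, 4, 4, 3, 3, 3, 2, 2, 2, 1, 3, 3, 2],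
    [4, 4, 3, 4, 4, 3, 2, 3, 3, 2, 3, 3, 1, 2, 2, 1, 1, 0, 4, 4, 3, 4, 4, 3, 3, 4, 4, 4, 4, 3, 4, 4, 3, 3, 4, 4, 2, 2, 1, 3, 3, 2, 3, 3, 2],
    [3, 4, 4, 1, 2, 2, 3, 4, 4, 3, 2, 3, 3, 2, 3, 3, 4, 4, 0, 1, 1, 3, 4, 4, 3, 4, 4, 3, 4, 4, 3, 3, 2, 3, 3, 2, 4, 3, 4, 4, 3, 4, 2, 1, 2],
    [4, 4, 3, 2, 3, 3, 4, 3, 4, 2, 1, 2, 3, 2, 3, 4, 3, 4, 1, 0, 1, 4, 3, 4, 4, 4, 3, 4, 3, 4, 3, 3, 2, 2, 2, 1, 3, 4, 4, 4, 4, 3, 3, 2, 3],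
    [4, 3, 4, 2, 3, 3, 4, 4, 3, 3, 2, 3, 2, 1, 2, 4, 4, 3, 1, 1, 0, 4, 4, 3, 4, 3, 4, 4, 4, 3, 2, 2, 1, 3, 3, 2, 4, 4, 3, 3, 4, 4, 3, 2, 3],
    [4, 3, 4, 2, 1, 2, 3, 2, 3, 3, 4, 4, 3, 3, 2, 4, 3, 4, 3, 4, 4, 0, 1, 1, 3, 4, 4, 3, 3, 2, 3, 4, 4, 3, 2, 3, 4, 3, 4, 2, 1, 2, 4, 3, 4],
    [4, 4, 3, 3, 2, 3, 2, 1, 2, 4, 3, 4, 3, 3, 2, 3, 4, 4, 4, 3, 4, 1, 0, 1, 4, 3, 4, 3, 3, 2, 4, 3, 4, 2, 1, 2, 3, 4, 4, 3, 2, 3, 4, 4, 3],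
    [3, 4, 4, 3, 2, 3, 3, 2, 3, 4, 4, 3, 2, 2, 1, 4, 4, 3, 4, 4, 3, 1, 1, 0, 4, 4, 3, 2, 2, 1, 4, 4, 3, 3, 2, 3, 4, 4, 3, 3, 2, 3, 3, 4, 4],
    [4, 4, 3, 2, 2, 1, 3, 3, 2, 3, 3, 2, 3, 4, 4, 4, 4, 3, 3, 4, 4, 3, 4, 4, 0, 1, 1, 3, 2, 3, 3, 2, 3, 3, 4, 4, 2, 1, 2, 4, 3, 4, 4, 3, 4],
    [4, 3, 4, 3, 3, 2, 2, 2, 1, 3, 3, 2, 4, 3, 4, 3, 4, 4, 4, 4, 3, 4, 3, 4, 1, 0, 1, 3, 2, 3, 2, 1, 2, 4, 3, 4, 3, 2, 3, 3, 4, 4, 4, 4, 3],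
    [3, 4, 4, 3, 3, 2, 3, 3, 2, 2, 2, 1, 4, 4, 3, 4, 3, 4, 4, 3, 4, 4, 4, 3, 1, 1, 0, 2, 1, 2, 3, 2, 3, 4, 4, 3, 3, 2, 3, 4, 4, 3, 3, 4, 4],
    [1, 2, 2, 3, 4, 4, 3, 4, 4, 3, 3, 2, 3, 3, 2, 3, 4, 4, 3, 4, 4, 3, 3, 2, 3, 3, 2, 0, 1, 1, 3, 4, 4, 3, 4, 4, 3, 4, 4, 3, 4, 4, 1, 2, 2],
    [2, 3, 3, 4, 4, 3, 4, 4, 3, 2, 2, 1, 3, 3, 2, 4, 3, 4, 4, 3, 4, 3, 3, 2, 2, 2, 1, 1, 0, 1, 4, 3, 4, 4, 4, 3, 4, 3, 4, 4, 4, 3, 2, 3, 3],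
    [2, 3, 3, 4, 3, 4, 4, 3, 4, 3, 3, 2, 2, 2, 1, 4, 4, 3, 4, 4, 3, 2, 2, 1, 3, 3, 2, 1, 1, 0, 4, 4, 3, 4, 3, 4, 4, 4, 3, 4, 3, 4, 2, 3, 3],
    [2, 1, 2, 4, 3, 4, 3, 3, 2, 3, 4, 4, 3, 2, 3, 4, 3, 4, 3, 3, 2, 3, 4, 4, 3, 2, 3, 3, 4, 4, 0, 1, 1, 3, 4, 4, 3, 4, 4, 1, 2, 2, 3, 4, 4],
    [3, 2, 3, 4, 4, 3, 2, 2, 1, 4, 4, 3, 3, 2, 3, 3, 4, 4, 3, 3, 2, 4, 3, 4, 2, 1, 2, 4, 3, 4, 1, 0, 1, 4, 3, 4, 4, 3, 4, 2, 3, 3, 4, 4, 3],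
    [3, 2, 3, 3, 4, 4, 3, 3, 2, 4, 3, 4, 2, 1, 2, 4, 4, 3, 2, 2, 1, 4, 4, 3, 3, 2, 3, 4, 4, 3, 1, 1, 0, 4, 4, 3, 4, 4, 3, 2, 3, 3, 4, 3, 4],
    [2, 2, 1, 4, 4, 3, 3, 2, 3, 3, 2, 3, 3, 4, 4, 4, 4, 3, 3, 2, 3, 3, 2, 3, 3, 4, 4, 3, 4, 4, 3, 4, 4, 0, 1, 1, 1, 2, 2, 3, 4, 4, 3, 4, 4],
    [3, 3, 2, 4, 3, 4, 2, 1, 2, 3, 2, 3, 4, 4, 3, 3, 4, 4, 3, 2, 3, 2, 1, 2, 4, 3, 4, 4, 4, 3, 4, 3, 4, 1, 0, 1, 2, 3, 3, 4, 3, 4, 4, 4, 3],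
    [3, 3, 2, 3, 4, 4, 3, 2, 3, 2, 1, 2, 4, 3, 4, 4, 3, 4, 2, 1, 2, 3, 2, 3, 4, 4, 3, 4, 3, 4, 4, 4, 3, 1, 1, 0, 2, 3, 3, 4, 4, 3, 4, 3, 4],
    [2, 2, 1, 3, 3, 2, 4, 3, 4, 4, 3, 4, 2, 3, 3, 3, 3, 2, 4, 3, 4, 4, 3, 4, 2, 3, 3, 3, 4, 4, 3, 4, 4, 1, 2, 2, 0, 1, 1, 3, 4, 4, 3, 4, 4],
    [3, 3, 2, 2, 2, 1, 4, 4, 3, 4, 4, 3, 2, 3, 3, 3, 3, 2, 3, 4, 4, 3, 4, 4, 1, 2, 2, 4, 3, 4, 4, 3, 4, 2, 3, 3, 1, 0, 1, 4, 3, 4, 4, 3, 4],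
    [3, 3, 2, 3, 3, 2, 3, 4, 4, 3, 4, 4, 1, 2, 2, 2, 2, 1, 4, 4, 3, 4, 4, 3, 2, 3, 3, 4, 4, 3, 4, 4, 3, 2, 3, 3, 1, 1, 0, 4, 4, 3, 4, 4, 3],
    [2, 1, 2, 3, 2, 3, 4, 4, 3, 2, 3, 3, 4, 3, 4, 3, 2, 3, 4, 4, 3, 2, 3, 3, 4, 3, 4, 3, 4, 4, 1, 2, 2, 3, 4, 4, 3, 4, 4, 0, 1, 1, 3, 4, 4],
    [3, 2, 3, 2, 1, 2, 4, 3, 4, 2, 3, 3, 4, 4, 3, 3, 2, 3, 3, 4, 4, 1, 2, 2, 3, 4, 4, 4, 4, 3, 2, 3, 3, 4, 3, 4, 4, 3, 4, 1, 0, 1, 4, 3, 4],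
    [3, 2, 3, 3, 2, 3, 3, 4, 4, 1, 2, 2, 3, 4, 4, 2, 1, 2, 4, 3, 4, 2, 3, 3, 4, 4, 3, 4, 3, 4, 2, 3, 3, 4, 4, 3, 4, 4, 3, 1, 1, 0, 4, 4, 3],
    [1, 2, 2, 2, 3, 3, 2, 3, 3, 4, 4, 3, 4, 4, 3, 2, 3, 3, 2, 3, 3, 4, 4, 3, 4, 4, 3, 1, 2, 2, 3, 4, 4, 3, 4, 4, 3, 4, 4, 3, 4, 4, 0, 1, 1],
    [2, 3, 3, 1, 2, 2, 2, 3, 3, 4, 3, 4, 4, 3, 4, 2, 3, 3, 1, 2, 2, 3, 4, 4, 3, 4, 4, 2, 3, 3, 4, 4, 3, 4, 4, 3, 4, 3, 4, 4, 3, 4, 1, 0, 1],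
    [2, 3, 3, 2, 3, 3, 1, 2, 2, 3, 4, 4, 3, 4, 4, 1, 2, 2, 2, 3, 3, 4, 3, 4, 4, 3, 4, 2, 3, 3, 4, 3, 4, 4, 3, 4, 4, 4, 3, 4, 4, 3, 1, 1, 0]]

def dst (a b : V) : ℕ := (dstT.getD a []).getD b 0

/-- for a pair of vertices, the number of steps which lead to the standard pair of the same distance -/
def rkT : List (List ℕ) := [
    [0, 0, 8, 0, 0, 11, 8, 11, 8, 8, 11, 8, 11, 8, 8, 4, 4, 8, 8, 7, 11, 10, 7, 10, 7, 11, 10, 7, 0, 4, 7, 11, 9, 9, 7, 7, 11, 7, 11, 7, 11, 11, 7, 8, 8],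
    [4, 0, 8, 4, 4, 8, 10, 11, 10, 8, 7, 7, 7, 4, 4, 8, 8, 10, 8, 9, 8, 8, 11, 8, 7, 8, 8, 9, 7, 9, 7, 4, 8, 11, 11, 7, 7, 7, 7, 7, 8, 4, 7, 11, 11],
    [6, 6, 0, 7, 9, 10, 7, 8, 8, 6, 6, 7, 12, 3, 7, 6, 7, 6, 9, 10, 7, 10, 10, 10, 10, 7, 3, 7, 3, 7, 7, 7, 3, 7, 10, 6, 3, 6, 8, 3, 9, 7, 3, 7, 7],
    [10, 12, 10, 0, 8, 6, 12, 9, 9, 9, 6, 6, 10, 10, 9, 10, 11, 10, 5, 8, 8, 9, 9, 9, 9, 9, 9, 8, 8, 8, 9, 10, 10, 5, 10, 8, 5, 9, 11, 9, 5, 9, 10, 9, 6],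
    [10, 6, 6, 10, 0, 6, 9, 10, 10, 10, 5, 11, 7, 11, 12, 9, 8, 8, 9, 5, 11, 7, 8, 6, 7, 11, 11, 9, 11, 12, 10, 10, 11, 9, 10, 7, 9, 5, 7, 10, 5, 10, 9, 7, 9],
    [9, 10, 10, 4, 8, 0, 5, 10, 8, 9, 10, 10, 8, 8, 11, 8, 11, 8, 9, 9, 9, 9, 11, 9, 5, 10, 8, 4, 4, 9, 8, 8, 9, 10, 10, 9, 8, 9, 4, 11, 5, 9, 9, 9, 5],
    [10, 7, 10, 10, 9, 10, 0, 6, 2, 2, 10, 2, 6, 10, 6, 9, 6, 8, 6, 9, 6, 9, 7, 9, 11, 9, 9, 8, 8, 8, 7, 9, 11, 11, 9, 9, 8, 6, 6, 9, 9, 10, 6, 2, 7],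
    [8, 5, 8, 8, 8, 7, 4, 0, 8, 9, 10, 10, 8, 9, 8, 5, 9, 9, 5, 12, 9, 8, 7, 12, 7, 5, 11, 4, 8, 4, 5, 9, 9, 8, 5, 4, 8, 9, 8, 8, 8, 10, 9, 5, 9],
    [6, 6, 9, 9, 9, 10, 6, 10, 0, 6, 7, 6, 9, 10, 13, 9, 7, 7, 9, 9, 10, 9, 7, 11, 6, 7, 10, 10, 10, 11, 10, 7, 6, 9, 7, 7, 11, 10, 7, 10, 11, 7, 11, 9, 7],
    [11, 12, 12, 8, 8, 8, 6, 11, 6, 0, 8, 6, 8, 10, 8, 8, 7, 8, 11, 7, 11, 10, 7, 10, 7, 11, 7, 11, 11, 11, 12, 11, 12, 11, 7, 11, 8, 7, 8, 8, 6, 7, 10, 10, 10],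
    [9, 10, 10, 10, 9, 3, 10, 10, 10, 6, 0, 8, 7, 8, 8, 11, 3, 7, 8, 3, 10, 9, 10, 7, 3, 11, 7, 7, 9, 7, 8, 10, 8, 6, 8, 7, 8, 11, 8, 11, 9, 7, 7, 6, 6],
    [10, 7, 9, 7, 7, 12, 10, 8, 8, 8, 8, 0, 11, 10, 10, 11, 7, 3, 7, 3, 7, 9, 11, 12, 8, 10, 3, 8, 7, 8, 11, 12, 7, 9, 11, 7, 8, 8, 3, 7, 7, 9, 8, 10, 8],
    [8, 6, 6, 4, 8, 4, 12, 11, 9, 8, 7, 8, 0, 4, 4, 6, 4, 7, 11, 7, 7, 9, 11, 7, 10, 10, 7, 11, 7, 9, 9, 9, 11, 8, 10, 8, 8, 4, 7, 8, 9, 8, 4, 10, 4],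
    [9, 10, 10, 8, 9, 7, 5, 10, 8, 10, 10, 10, 8, 0, 8, 5, 11, 7, 8, 8, 7, 9, 7, 7, 7, 8, 8, 9, 11, 5, 8, 10, 5, 9, 7, 12, 9, 7, 11, 10, 11, 10, 11, 8, 8],
    [10, 11, 10, 9, 10, 11, 10, 10, 7, 9, 6, 6, 6, 6, 0, 9, 7, 9, 9, 9, 7, 6, 8, 7, 11, 10, 10, 10, 8, 9, 11, 7, 9, 8, 8, 10, 11, 11, 7, 10, 10, 7, 6, 8, 6],
    [6, 11, 6, 10, 9, 7, 7, 10, 6, 7, 7, 11, 7, 11, 11, 0, 6, 6, 10, 9, 11, 9, 10, 10, 10, 6, 6, 10, 10, 11, 10, 10, 10, 9, 10, 7, 9, 7, 9, 11, 9, 9, 10, 6, 7],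
    [10, 8, 8, 11, 10, 10, 7, 9, 9, 7, 8, 8, 9, 7, 7, 8, 0, 6, 12, 6, 6, 12, 9, 9, 10, 9, 10, 9, 10, 7, 8, 8, 7, 10, 8, 8, 11, 11, 9, 8, 6, 7, 9, 11, 7],
    [10, 9, 10, 9, 8, 8, 9, 7, 11, 7, 9, 7, 5, 8, 10, 8, 8, 0, 9, 10, 10, 5, 7, 10, 12, 11, 7, 8, 9, 8, 11, 12, 12, 12, 12, 9, 12, 8, 7, 9, 5, 9, 11, 9, 5],
    [10, 10, 9, 7, 8, 4, 8, 8, 9, 11, 7, 11, 7, 9, 9, 8, 8, 8, 0, 8, 4, 6, 11, 6, 8, 8, 10, 4, 10, 4, 11, 9, 9, 9, 11, 11, 9, 10, 7, 11, 10, 10, 8, 9, 6],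
    [11, 9, 10, 9, 9, 7, 9, 10, 12, 8, 7, 10, 11, 7, 11, 10, 10, 10, 8, 0, 6, 12, 10, 10, 7, 6, 6, 8, 8, 10, 7, 11, 11, 6, 8, 9, 8, 8, 10, 7, 9, 10, 11, 7, 9],
    [7, 10, 5, 5, 11, 3, 11, 10, 10, 9, 3, 7, 8, 3, 10, 7, 6, 6, 8, 6, 0, 10, 10, 10, 9, 10, 9, 8, 7, 8, 10, 6, 5, 5, 11, 7, 9, 3, 12, 8, 8, 9, 7, 9, 7],
    [7, 10, 10, 6, 3, 8, 9, 3, 11, 6, 10, 6, 3, 7, 11, 9, 10, 7, 10, 11, 7, 0, 6, 6, 6, 6, 7, 7, 7, 7, 8, 8, 8, 7, 7, 11, 7, 8, 3, 10, 7, 6, 9, 10, 10],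
    [11, 8, 8, 9, 7, 11, 4, 7, 8, 7, 8, 8, 7, 11, 7, 8, 8, 7, 8, 8, 10, 4, 0, 4, 8, 4, 4, 11, 9, 9, 4, 4, 8, 4, 7, 4, 4, 4, 8, 11, 9, 7, 8, 10, 8],
    [10, 10, 9, 7, 7, 7, 7, 7, 11, 7, 10, 10, 8, 10, 3, 7, 3, 10, 11, 7, 8, 10, 8, 0, 10, 8, 8, 8, 10, 7, 7, 11, 12, 9, 3, 7, 11, 7, 10, 7, 7, 3, 10, 7, 10],
    [9, 10, 10, 8, 8, 7, 9, 11, 7, 11, 7, 7, 12, 7, 11, 8, 10, 8, 8, 7, 8, 12, 11, 9, 0, 4, 8, 9, 9, 9, 11, 9, 7, 8, 8, 10, 8, 7, 4, 4, 4, 11, 8, 8, 9],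
    [11, 10, 10, 7, 7, 9, 6, 10, 7, 7, 11, 3, 3, 10, 9, 10, 9, 11, 7, 6, 6, 7, 10, 10, 8, 0, 6, 9, 7, 9, 10, 3, 8, 8, 8, 10, 11, 7, 3, 8, 8, 7, 9, 7, 10],
    [12, 9, 11, 11, 11, 7, 11, 7, 7, 8, 8, 7, 7, 8, 8, 8, 8, 7, 10, 10, 9, 8, 10, 8, 8, 8, 0, 8, 7, 8, 9, 7, 9, 9, 7, 10, 9, 9, 7, 10, 8, 8, 10, 10, 11],
    [5, 8, 10, 10, 5, 9, 10, 9, 5, 9, 9, 5, 9, 9, 5, 8, 9, 8, 10, 11, 9, 5, 9, 5, 5, 5, 9, 0, 8, 8, 12, 9, 11, 12, 11, 9, 10, 5, 9, 8, 9, 8, 5, 8, 10],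
    [13, 9, 5, 8, 10, 8, 9, 6, 6, 6, 10, 5, 11, 13, 5, 10, 10, 10, 9, 6, 6, 9, 9, 9, 6, 10, 9, 8, 0, 6, 10, 10, 10, 5, 8, 8, 9, 10, 11, 9, 9, 10, 9, 9, 9],
    [9, 7, 9, 8, 8, 9, 9, 10, 10, 5, 13, 7, 6, 10, 5, 5, 6, 6, 6, 2, 2, 2, 6, 5, 9, 9, 5, 6, 2, 0, 7, 6, 6, 9, 6, 6, 9, 8, 8, 9, 10, 5, 5, 9, 5],
    [8, 9, 6, 8, 8, 8, 5, 9, 9, 6, 9, 6, 9, 9, 5, 5, 12, 9, 9, 9, 5, 10, 9, 5, 9, 5, 9, 8, 11, 8, 0, 6, 8, 10, 10, 12, 8, 8, 10, 5, 10, 8, 8, 8, 9],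
    [7, 9, 9, 6, 10, 6, 2, 6, 5, 10, 2, 2, 7, 9, 9, 6, 8, 6, 5, 11, 7, 9, 10, 10, 8, 7, 6, 7, 10, 9, 6, 0, 2, 9, 8, 8, 6, 6, 7, 5, 9, 9, 9, 5, 10],
    [9, 7, 9, 4, 4, 7, 9, 11, 11, 8, 6, 6, 4, 7, 8, 9, 7, 10, 6, 10, 7, 9, 6, 6, 7, 7, 11, 11, 10, 10, 4, 6, 0, 9, 8, 8, 8, 10, 8, 9, 9, 7, 9, 10, 9],
    [2, 6, 9, 10, 6, 6, 9, 9, 13, 9, 9, 11, 6, 6, 9, 6, 2, 2, 9, 9, 11, 9, 9, 9, 6, 10, 6, 10, 10, 12, 10, 12, 10, 0, 6, 2, 9, 6, 6, 6, 9, 6, 6, 6, 9],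
    [5, 9, 5, 5, 8, 8, 8, 1, 8, 5, 5, 9, 11, 8, 8, 10, 5, 9, 1, 9, 5, 10, 5, 8, 8, 8, 9, 8, 8, 8, 9, 10, 5, 8, 0, 8, 1, 9, 9, 12, 12, 9, 5, 1, 12],
    [9, 9, 9, 8, 9, 8, 5, 9, 9, 8, 5, 6, 10, 10, 10, 9, 6, 6, 6, 5, 8, 5, 9, 9, 10, 10, 10, 9, 10, 9, 6, 9, 6, 6, 8, 0, 5, 9, 11, 9, 5, 8, 9, 8, 5],
    [6, 6, 7, 9, 11, 7, 10, 6, 6, 6, 6, 10, 9, 7, 9, 9, 9, 7, 9, 10, 10, 10, 6, 6, 9, 9, 7, 10, 7, 9, 10, 10, 7, 9, 10, 10, 0, 6, 6, 10, 10, 10, 10, 11, 9],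
    [9, 9, 7, 8, 10, 9, 10, 10, 10, 7, 11, 12, 9, 9, 9, 9, 7, 9, 12, 11, 11, 8, 8, 9, 7, 8, 4, 9, 8, 8, 9, 10, 9, 9, 11, 11, 8, 0, 4, 8, 8, 8, 9, 4, 4],
    [9, 11, 7, 7, 9, 9, 8, 8, 10, 10, 9, 11, 7, 4, 8, 10, 8, 9, 7, 11, 8, 9, 10, 10, 9, 11, 9, 11, 9, 12, 10, 8, 8, 9, 11, 9, 8, 4, 0, 12, 4, 4, 9, 8, 8],
    [8, 5, 10, 5, 1, 9, 1, 7, 10, 7, 5, 5, 8, 8, 9, 1, 5, 9, 5, 9, 12, 5, 7, 9, 9, 10, 5, 12, 9, 11, 1, 8, 8, 8, 8, 5, 8, 8, 8, 0, 8, 8, 8, 8, 10],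
    [11, 9, 13, 10, 5, 6, 6, 6, 10, 11, 9, 9, 10, 12, 10, 5, 9, 11, 6, 6, 8, 9, 6, 6, 10, 9, 10, 10, 9, 10, 5, 9, 9, 12, 10, 10, 10, 10, 12, 6, 0, 6, 6, 6, 5],
    [9, 9, 9, 9, 5, 11, 10, 9, 5, 9, 6, 8, 10, 9, 10, 6, 5, 8, 10, 10, 10, 9, 9, 11, 6, 9, 6, 8, 8, 12, 9, 5, 9, 9, 11, 10, 10, 8, 8, 6, 6, 0, 6, 8, 6],
    [7, 8, 8, 5, 9, 7, 11, 9, 9, 5, 11, 10, 11, 10, 10, 7, 5, 7, 7, 11, 11, 8, 10, 8, 7, 9, 8, 5, 4, 8, 8, 9, 8, 8, 8, 10, 8, 8, 7, 4, 4, 8, 0, 4, 8],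
    [7, 11, 9, 7, 6, 8, 9, 7, 5, 10, 10, 9, 6, 6, 8, 9, 9, 9, 5, 8, 10, 10, 7, 10, 12, 11, 11, 5, 9, 11, 11, 5, 12, 9, 11, 10, 11, 8, 8, 8, 8, 9, 8, 0, 6],
    [7, 11, 11, 7, 5, 11, 7, 10, 6, 6, 6, 7, 10, 7, 9, 5, 10, 10, 11, 7, 7, 10, 10, 12, 10, 10, 11, 5, 7, 9, 11, 10, 9, 11, 12, 7, 10, 11, 10, 10, 5, 10, 10, 6, 0]]

def rk (a b : V) : ℕ := (rkT.getD a []).getD b 0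

/-- the generator of the first step -/
def nxT : List (List ℕ) := [
    [0, 0, 0, 0, 0, 1, 0, 1, 0, 0, 1, 0, 1, 1, 1, 0, 0, 0, 0, 1, 1, 1, 1, 0, 1, 1, 1, 1, 0, 0, 1, 1, 0, 0, 1, 1, 1, 1, 1, 1, 0, 1, 1, 0, 1],
    [1, 0, 1, 1, 1, 1, 1, 1, 1, 1, 0, 1, 0, 1, 1, 1, 1, 1, 1, 0, 1, 1, 0, 1, 1, 0, 0, 0, 1, 0, 0, 1, 1, 1, 0, 0, 1, 1, 0, 0, 0, 1, 0, 1, 1],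
    [0, 0, 0, 1, 0, 0, 1, 0, 0, 0, 0, 1, 1, 0, 1, 0, 0, 0, 0, 0, 0, 0, 0, 0, 0, 0, 1, 0, 1, 1, 1, 0, 0, 1, 0, 0, 0, 0, 0, 1, 0, 0, 0, 1, 1],
    [1, 0, 1, 0, 1, 0, 1, 1, 1, 0, 0, 0, 1, 0, 1, 0, 1, 0, 0, 1, 1, 0, 1, 1, 1, 1, 0, 1, 1, 1, 0, 0, 0, 0, 0, 1, 0, 0, 0, 0, 0, 0, 0, 1, 0],
    [1, 1, 1, 0, 0, 1, 0, 1, 1, 0, 0, 1, 1, 1, 0, 0, 0, 0, 0, 0, 1, 1, 0, 1, 1, 1, 1, 0, 1, 0, 0, 0, 1, 1, 0, 1, 0, 0, 1, 0, 0, 1, 0, 1, 0],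
    [1, 1, 0, 1, 0, 0, 0, 1, 1, 0, 0, 0, 0, 0, 1, 1, 0, 1, 0, 0, 0, 0, 0, 0, 0, 0, 1, 1, 1, 0, 0, 0, 0, 0, 0, 0, 1, 0, 1, 1, 0, 0, 1, 0, 0],
    [0, 1, 1, 0, 0, 0, 0, 0, 0, 0, 1, 0, 0, 0, 0, 0, 0, 0, 0, 0, 0, 0, 1, 0, 0, 0, 1, 1, 0, 1, 1, 0, 1, 1, 0, 0, 1, 0, 0, 0, 0, 0, 0, 0, 1],
    [1, 0, 1, 1, 1, 1, 1, 0, 0, 0, 1, 1, 1, 1, 1, 0, 0, 0, 0, 1, 0, 1, 1, 1, 1, 0, 1, 1, 1, 1, 0, 0, 0, 1, 0, 1, 0, 0, 0, 0, 0, 1, 0, 0, 0],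
    [0, 0, 0, 0, 0, 0, 0, 0, 0, 0, 1, 0, 1, 1, 1, 0, 1, 1, 0, 0, 0, 0, 1, 1, 0, 1, 0, 0, 0, 1, 0, 1, 0, 0, 1, 1, 1, 0, 1, 0, 1, 1, 1, 0, 1],
    [1, 0, 1, 0, 1, 1, 1, 1, 1, 0, 1, 1, 1, 1, 1, 1, 0, 0, 1, 0, 0, 0, 0, 0, 0, 0, 0, 1, 0, 0, 1, 0, 0, 0, 0, 0, 1, 0, 1, 1, 1, 0, 0, 0, 0],
    [1, 0, 0, 1, 1, 1, 1, 1, 1, 0, 0, 0, 0, 0, 0, 1, 1, 0, 0, 1, 1, 1, 1, 1, 1, 0, 0, 1, 1, 1, 0, 0, 0, 0, 0, 1, 0, 1, 0, 1, 1, 1, 1, 0, 0],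
    [1, 1, 0, 1, 0, 0, 1, 0, 0, 1, 0, 0, 0, 0, 0, 1, 1, 0, 1, 0, 0, 0, 1, 1, 1, 0, 0, 0, 1, 1, 0, 0, 0, 0, 0, 0, 1, 1, 0, 1, 0, 0, 1, 0, 1],
    [0, 1, 1, 0, 1, 0, 0, 1, 0, 1, 0, 1, 0, 0, 1, 1, 0, 0, 1, 0, 1, 0, 1, 0, 1, 1, 1, 0, 1, 0, 0, 0, 1, 0, 0, 0, 1, 1, 1, 0, 0, 0, 1, 1, 1],
    [1, 1, 1, 0, 0, 1, 1, 0, 0, 1, 1, 0, 0, 0, 1, 1, 0, 1, 1, 0, 1, 0, 1, 0, 0, 1, 1, 1, 1, 1, 0, 1, 1, 0, 1, 0, 0, 1, 1, 1, 0, 1, 1, 1, 1],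
    [1, 1, 1, 1, 0, 0, 1, 1, 0, 1, 0, 0, 0, 0, 0, 1, 0, 1, 1, 1, 0, 0, 1, 0, 1, 0, 0, 0, 1, 1, 0, 0, 1, 1, 1, 0, 0, 0, 0, 1, 1, 0, 0, 1, 0],
    [1, 1, 1, 1, 1, 0, 0, 1, 1, 0, 0, 0, 0, 0, 1, 0, 0, 1, 1, 0, 0, 1, 0, 0, 0, 0, 0, 0, 0, 1, 0, 0, 1, 0, 0, 0, 1, 0, 1, 1, 1, 0, 0, 0, 0],
    [0, 0, 0, 0, 1, 1, 1, 0, 1, 1, 0, 0, 0, 0, 1, 1, 0, 1, 1, 1, 1, 0, 0, 1, 0, 0, 1, 1, 1, 1, 0, 0, 0, 0, 1, 1, 0, 0, 1, 1, 1, 0, 1, 0, 0],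
    [1, 0, 1, 0, 0, 0, 0, 1, 1, 1, 1, 0, 1, 0, 1, 1, 0, 0, 1, 1, 1, 1, 1, 1, 0, 1, 0, 1, 1, 1, 0, 1, 0, 0, 0, 1, 1, 1, 0, 0, 1, 1, 0, 0, 1],
    [0, 0, 1, 1, 1, 1, 1, 1, 1, 0, 1, 1, 1, 1, 0, 1, 1, 1, 0, 1, 1, 0, 1, 0, 1, 1, 0, 1, 0, 1, 0, 1, 0, 1, 1, 1, 0, 0, 1, 0, 1, 1, 1, 1, 0],
    [0, 0, 1, 0, 0, 1, 0, 1, 1, 1, 1, 1, 1, 1, 1, 0, 0, 1, 1, 0, 0, 1, 0, 0, 1, 0, 0, 1, 1, 1, 1, 1, 1, 0, 1, 0, 1, 1, 0, 1, 0, 0, 1, 1, 0],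
    [0, 0, 0, 0, 0, 1, 1, 1, 1, 0, 1, 1, 1, 1, 1, 1, 1, 1, 1, 1, 0, 0, 0, 0, 0, 1, 1, 1, 1, 1, 0, 1, 0, 0, 1, 1, 1, 1, 0, 1, 1, 0, 0, 0, 1],
    [0, 1, 1, 1, 1, 1, 1, 1, 1, 1, 1, 1, 1, 1, 1, 1, 1, 0, 1, 1, 1, 0, 1, 1, 1, 1, 0, 0, 0, 1, 0, 0, 1, 1, 0, 1, 1, 0, 1, 1, 0, 1, 1, 1, 1],
    [0, 0, 0, 1, 0, 1, 0, 0, 0, 0, 0, 0, 0, 0, 0, 0, 0, 0, 0, 0, 0, 0, 0, 1, 0, 1, 1, 1, 0, 1, 0, 0, 1, 1, 0, 0, 0, 0, 0, 1, 1, 0, 1, 0, 1],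
    [0, 0, 1, 0, 0, 0, 0, 0, 0, 1, 0, 0, 1, 0, 0, 0, 0, 0, 0, 0, 1, 1, 1, 0, 1, 1, 1, 1, 0, 1, 0, 0, 1, 1, 0, 0, 0, 0, 1, 0, 0, 0, 0, 0, 0],
    [1, 0, 0, 1, 0, 1, 1, 1, 1, 0, 1, 0, 0, 0, 1, 0, 0, 0, 0, 1, 0, 1, 0, 1, 0, 0, 1, 1, 1, 1, 0, 1, 0, 1, 1, 0, 0, 0, 0, 0, 0, 1, 1, 1, 1],
    [0, 1, 1, 0, 0, 0, 1, 1, 1, 0, 1, 0, 0, 1, 0, 0, 0, 1, 0, 1, 1, 0, 0, 0, 0, 0, 1, 1, 0, 0, 0, 0, 0, 0, 0, 1, 0, 0, 0, 0, 0, 0, 1, 1, 0],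
    [0, 1, 1, 1, 0, 0, 0, 0, 1, 1, 0, 0, 1, 1, 0, 0, 0, 0, 0, 1, 1, 1, 1, 1, 0, 0, 0, 0, 1, 0, 1, 0, 1, 1, 0, 1, 1, 1, 0, 0, 0, 0, 0, 0, 1],
    [0, 1, 1, 1, 0, 0, 1, 0, 0, 0, 0, 0, 1, 0, 0, 1, 0, 1, 0, 0, 0, 0, 0, 0, 0, 0, 0, 0, 0, 1, 1, 0, 1, 1, 1, 0, 1, 0, 0, 0, 0, 0, 0, 0, 0],
    [0, 0, 0, 1, 0, 1, 0, 0, 0, 0, 1, 0, 1, 0, 0, 1, 0, 0, 0, 0, 0, 1, 0, 0, 0, 0, 0, 1, 0, 0, 1, 1, 0, 0, 1, 1, 0, 1, 1, 0, 1, 0, 1, 0, 0],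
    [1, 1, 0, 1, 1, 1, 1, 0, 0, 1, 1, 1, 0, 0, 1, 1, 0, 0, 0, 0, 0, 0, 0, 1, 1, 1, 1, 0, 0, 0, 1, 0, 0, 0, 0, 0, 1, 1, 1, 1, 0, 1, 1, 0, 1],
    [0, 1, 0, 0, 0, 0, 1, 1, 1, 0, 0, 0, 1, 1, 1, 1, 0, 1, 1, 0, 1, 0, 1, 1, 1, 1, 1, 0, 0, 0, 0, 0, 0, 0, 0, 1, 1, 1, 1, 1, 1, 0, 1, 1, 1],
    [0, 0, 1, 1, 1, 1, 1, 1, 0, 0, 1, 1, 0, 1, 0, 1, 0, 1, 0, 0, 0, 0, 1, 1, 1, 0, 1, 0, 1, 0, 1, 0, 1, 1, 1, 1, 1, 1, 0, 0, 0, 1, 1, 0, 0],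
    [1, 1, 0, 0, 0, 1, 0, 1, 0, 0, 1, 1, 0, 0, 0, 1, 0, 1, 1, 1, 1, 1, 1, 1, 1, 0, 0, 0, 1, 1, 0, 1, 0, 0, 0, 0, 0, 0, 0, 0, 1, 0, 1, 1, 0],
    [1, 0, 1, 0, 0, 0, 1, 0, 1, 0, 1, 0, 1, 1, 1, 1, 1, 1, 1, 1, 1, 1, 1, 1, 0, 1, 0, 1, 1, 0, 0, 0, 0, 0, 0, 1, 1, 1, 0, 1, 1, 1, 0, 0, 1],
    [1, 1, 0, 1, 0, 0, 0, 0, 0, 0, 1, 0, 1, 0, 0, 1, 0, 1, 0, 1, 1, 1, 1, 1, 1, 1, 0, 0, 1, 0, 1, 0, 1, 0, 0, 0, 0, 1, 1, 0, 0, 1, 1, 0, 0],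
    [0, 1, 0, 0, 1, 0, 0, 1, 0, 0, 1, 1, 1, 1, 1, 0, 1, 1, 1, 0, 0, 1, 0, 1, 1, 0, 1, 1, 1, 1, 1, 0, 1, 1, 0, 0, 0, 0, 0, 1, 1, 0, 0, 1, 0],
    [1, 0, 0, 0, 1, 1, 0, 1, 1, 1, 1, 0, 1, 1, 0, 1, 1, 0, 0, 1, 1, 1, 0, 0, 1, 1, 0, 0, 0, 0, 1, 1, 1, 0, 1, 0, 0, 1, 1, 1, 1, 1, 0, 1, 1],
    [1, 0, 1, 0, 0, 0, 1, 1, 1, 1, 1, 0, 0, 1, 1, 0, 1, 1, 0, 0, 1, 1, 1, 1, 1, 1, 1, 1, 0, 0, 0, 0, 1, 1, 1, 0, 0, 0, 1, 0, 1, 1, 0, 1, 1],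
    [1, 1, 1, 1, 1, 0, 0, 0, 1, 1, 0, 1, 1, 0, 0, 1, 1, 1, 1, 0, 0, 0, 0, 0, 1, 1, 0, 1, 0, 1, 1, 1, 1, 1, 0, 0, 0, 0, 0, 1, 0, 0, 1, 0, 0],
    [0, 0, 0, 0, 1, 1, 1, 0, 0, 0, 0, 1, 0, 0, 1, 1, 0, 0, 0, 1, 0, 1, 0, 1, 1, 0, 1, 1, 1, 0, 1, 1, 1, 1, 1, 0, 1, 0, 1, 0, 1, 1, 1, 1, 0],
    [0, 0, 0, 1, 0, 1, 1, 1, 1, 0, 0, 0, 1, 1, 1, 0, 0, 0, 1, 1, 0, 0, 1, 1, 1, 0, 1, 1, 0, 1, 0, 0, 0, 1, 1, 1, 1, 1, 0, 1, 0, 1, 1, 1, 0],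
    [1, 1, 0, 0, 1, 1, 0, 1, 1, 1, 0, 1, 0, 1, 0, 1, 1, 0, 1, 1, 0, 1, 1, 1, 1, 1, 1, 0, 0, 1, 0, 1, 1, 0, 1, 1, 0, 0, 0, 0, 1, 0, 0, 1, 0],
    [0, 1, 0, 1, 0, 0, 0, 1, 0, 1, 0, 1, 0, 1, 1, 0, 1, 0, 0, 0, 0, 0, 1, 0, 0, 0, 1, 1, 0, 0, 0, 1, 0, 0, 0, 0, 0, 0, 0, 0, 0, 0, 0, 0, 0],
    [0, 1, 1, 0, 0, 0, 1, 0, 1, 0, 0, 1, 0, 0, 0, 1, 1, 1, 1, 0, 1, 1, 0, 0, 1, 0, 0, 1, 1, 0, 1, 1, 0, 1, 0, 0, 1, 1, 1, 0, 0, 1, 0, 0, 0],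
    [0, 0, 0, 0, 1, 0, 0, 0, 0, 0, 0, 0, 0, 0, 1, 1, 0, 1, 0, 0, 0, 1, 1, 1, 0, 0, 0, 1, 0, 1, 1, 0, 1, 0, 0, 0, 1, 0, 1, 1, 1, 1, 1, 0, 0]]

def nx (a b : V) : ℕ := (nxT.getD a []).getD b 0

/-- the vertex of the standard pair `(0, rep d)` of distance `d` -/
def rep (d : ℕ) : V := app [0, 1, 28, 3, 4] (Fin.ofNat 45 d)

end Pool.Agent.T2h44.SY
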