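import Mathlib
import Pool.Agent.T2h44.SY.Data

/-!
# The line graph of the Tutte-Coxeter graph: properties
-/

set_option autoImplicit false

namespace Pool.Agent.T2h44.SY

/-- automorphisms of the graph -/
def IsAut (σ : Equiv.Perm V) : Prop := ∀ a b, adj a b ↔ adj (σ a) (σ b)

instance (σ : Equiv.Perm V) : Decidable (IsAut σ) :=
  inferInstanceAs (Decidable (∀ a b, adj a b ↔ adj (σ a) (σ b)))

theorem aut_A : IsAut pA := by decide +kernel
theorem aut_B : IsAut pB := by decide +kernel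
theorem aut_H : IsAut pH := by decide +kernel
theorem aut_S : IsAut pS := by decide +kernel

theorem adj_irrefl : ∀ a, ¬ adj a a := by decide +kernel
theorem adj_symm : ∀ a b, adj a b → adj b a := by decide +kernel

theorem col_hom : ∀ a b, adj a b → adj (col a) (col b) := by decide +kernel
theorem fly_hom : ∀ a b, adj a b → adj (fly a) (fly b) := by decide +kernel
theorem col_mem : ∀ a, col a ∈ tri := by decide +kernel
theorem fly_mem : ∀ a, fly a ∈ but := by decide +kernel
theorem col_tri : ∀ a ∈ tri, col a = a := by decide +kernel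
theorem fly_but : ∀ a ∈ but, fly a = a := by decide +kernel
theorem tri_adj : ∀ a ∈ tri, ∀ b ∈ tri, a ≠ b → adj a b := by decide +kernel
theorem tri_sub : tri ⊆ but := by decide +kernel
theorem card_tri : tri.card = 3 := by decide +kernel
theorem card_but : but.card = 5 := by decide +kernel
theorem fly_H : ∀ a ∈ but, fly (pH a) ∈ tri := by decide +kernel

theorem S_fix : pS 0 = 0 ∧ ∀ d ∈ Finset.Icc 1 4, pS (rep d) ≠ rep d := by decide +kernel

theorem table : ∀ a b : V, a ≠ b → (rk a b = 0 ∧ a = 0 ∧ b = rep (dst a b)) ∨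
    (nx a b = 0 ∧ rk (pA a) (pA b) < rk a b ∧ dst (pA a) (pA b) = dst a b) ∨
    (rk (pB a) (pB b) < rk a b ∧ dst (pB a) (pB b) = dst a b) := by decide +kernel

theorem dst_range : ∀ a b : V, a ≠ b → dst a b ∈ Finset.Icc 1 4 := by decide +kernel

theorem pair_ind (Q : V → V → Prop) (hA : ∀ a b, Q (pA a) (pA b) → Q a b)
    (hB : ∀ a b, Q (pB a) (pB b) → Q a b) (d : ℕ) (h0 : Q 0 (rep d)) :
    ∀ a b, a ≠ b → dst a b = d → Q a b := by
  have key : ∀ n : ℕ, ∀ a b, rk a b = n → a ≠ b → dst a b = d → Q a b := by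
    intro n
    induction n using Nat.strong_induction_on with
    | _ n ih =>
      intro a b hn hab hd
      rcases table a b hab with ⟨-, h1, h2⟩ | ⟨-, h1, h2⟩ | ⟨h1, h2⟩
      · rw [h1, h2, hd]
        exact h0
      · exact hA a b (ih _ (hn ▸ h1) _ _ rfl (fun h => hab (pA.injective h)) (h2.trans hd))
      · exact hB a b (ih _ (hn ▸ h1) _ _ rfl (fun h => hab (pB.injective h)) (h2.trans hd))
  exact fun a b => key _ a b rfl

/-- Every property of pairs of different vertices which is invariant and holds for the standard pairs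
holds for all pairs. -/
theorem pair_all (Q : V → V → Prop) (hA : ∀ a b, Q (pA a) (pA b) → Q a b)
    (hB : ∀ a b, Q (pB a) (pB b) → Q a b) (h0 : ∀ d ∈ Finset.Icc 1 4, Q 0 (rep d)) (a b : V)
    (hab : a ≠ b) : Q a b :=
  pair_ind Q hA hB _ (h0 _ (dst_range a b hab)) a b hab rfl

theorem isAut_mul {σ τ : Equiv.Perm V} (hσ : IsAut σ) (hτ : IsAut τ) : IsAut (σ * τ) :=
  fun a b => (hτ a b).trans (hσ _ _)

theorem isAut_one : IsAut 1 := fun _ _ => Iff.rfl

theorem app_inv {α : Type*} (σ : Equiv.Perm α) (a : α) : σ (σ⁻¹ a) = a := σ.apply_symm_apply a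

theorem inv_app {α : Type*} (σ : Equiv.Perm α) (a : α) : σ⁻¹ (σ a) = a := σ.symm_apply_apply a

theorem isAut_inv {σ : Equiv.Perm V} (hσ : IsAut σ) : IsAut σ⁻¹ := by
  intro a b
  have := hσ (σ⁻¹ a) (σ⁻¹ b)
  rw [app_inv, app_inv] at this
  exact this.symm

/-- transitivity -/
theorem exists_to_zero (a : V) : ∃ σ, IsAut σ ∧ σ a = 0 := by
  obtain ⟨b, hb⟩ : ∃ b : V, a ≠ b := by
    by_cases h : a = 0
    · exact ⟨1, by rw [h]; decide⟩
    · exact ⟨0, h⟩
  refine pair_all (fun a _ => ∃ σ, IsAut σ ∧ σ a = 0) ?_ ?_ ?_ a b hb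
  · rintro a b ⟨σ, h1, h2⟩
    exact ⟨σ * pA, isAut_mul h1 aut_A, h2⟩
  · rintro a b ⟨σ, h1, h2⟩
    exact ⟨σ * pB, isAut_mul h1 aut_B, h2⟩
  · intro d _
    exact ⟨1, isAut_one, rfl⟩

theorem exists_aut (a b : V) : ∃ σ, IsAut σ ∧ σ a = b := by
  obtain ⟨σ, h1, h2⟩ := exists_to_zero a
  obtain ⟨τ, h3, h4⟩ := exists_to_zero b
  refine ⟨τ⁻¹ * σ, isAut_mul (isAut_inv h3) h1, ?_⟩
  rw [Equiv.Perm.mul_apply, h2, ← h4, inv_app]

/-- the stabiliser of `a` fixes no other vertex -/
theorem exists_move (a b : V) (hab : a ≠ b) : ∃ σ, IsAut σ ∧ σ a = a ∧ σ b ≠ b := by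
  refine pair_all (fun a b => ∃ σ, IsAut σ ∧ σ a = a ∧ σ b ≠ b) ?_ ?_ ?_ a b hab
  · rintro a b ⟨σ, h1, h2, h3⟩
    refine ⟨pA⁻¹ * σ * pA, isAut_mul (isAut_mul (isAut_inv aut_A) h1) aut_A, ?_, ?_⟩
    · rw [Equiv.Perm.mul_apply, Equiv.Perm.mul_apply, h2, inv_app]
    · intro h
      rw [Equiv.Perm.mul_apply, Equiv.Perm.mul_apply, Equiv.Perm.inv_eq_iff_eq] at h
      exact h3 h
  · rintro a b ⟨σ, h1, h2, h3⟩
    refine ⟨pB⁻¹ * σ * pB, isAut_mul (isAut_mul (isAut_inv aut_B) h1) aut_B, ?_, ?_⟩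
    · rw [Equiv.Perm.mul_apply, Equiv.Perm.mul_apply, h2, inv_app]
    · intro h
      rw [Equiv.Perm.mul_apply, Equiv.Perm.mul_apply, Equiv.Perm.inv_eq_iff_eq] at h
      exact h3 h
  · intro d hd
    exact ⟨pS, aut_S, S_fix.1, S_fix.2 d hd⟩

/-- primitivity -/
theorem prim (R : V → V → Prop) (hr : ∀ a, R a a)
    (ht : ∀ a b c, R a b → R b c → R a c) (hA : ∀ a b, R a b ↔ R (pA a) (pA b))
    (hB : ∀ a b, R a b ↔ R (pB a) (pB b)) {a b : V} (hab : a ≠ b) (h : R a b) : ∀ x y, R x y := by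
  -- a class of pairs
  have hcls : ∀ a b, a ≠ b → R a b → ∀ x y, x ≠ y → dst x y = dst a b → R x y := by
    intro a b hab h x y hxy hd
    have h1 : R 0 (rep (dst a b)) := by
      have key : ∀ d : ℕ, ∀ n : ℕ, ∀ a b, rk a b = n → a ≠ b → dst a b = d → R a b →
          R 0 (rep d) := by
        intro d n
        induction n using Nat.strong_induction_on with
        | _ n ih =>
          intro a b hn hab hd h
          rcases table a b hab with ⟨-, h1, h2⟩ | ⟨-, h1, h2⟩ | ⟨h1, h2⟩
          · rw [hd] at h2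
            rw [← h2, ← h1]
            exact h
          · exact ih _ (hn ▸ h1) _ _ rfl (fun h => hab (pA.injective h)) (h2.trans hd)
              ((hA a b).1 h)
          · exact ih _ (hn ▸ h1) _ _ rfl (fun h => hab (pB.injective h)) (h2.trans hd)
              ((hB a b).1 h)
      exact key _ _ a b rfl hab rfl h
    exact pair_ind R (fun a b => (hA a b).2) (fun a b => (hB a b).2) _ h1 x y hxy hd
  -- from a triple
  have htr : ∀ p q s : ℕ, ∀ x y z : V, x ≠ y → y ≠ z → x ≠ z → dst x y = p → dst y z = q →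
      dst x z = s → (∀ x y, x ≠ y → dst x y = p → R x y) → (∀ x y, x ≠ y → dst x y = q → R x y) →
      ∀ x y, x ≠ y → dst x y = s → R x y := by
    intro p q s x y z hxy hyz hxz h1 h2 h3 hp hq u v huv hd
    exact hcls x z hxz (ht _ _ _ (hp x y hxy h1) (hq y z hyz h2)) u v huv (hd.trans h3.symm)
  have hd := hcls a b hab h
  have h1 : ∀ x y, x ≠ y → dst x y = 1 → R x y := by
    have h2 := dst_range a b hab
    rw [Finset.mem_Icc] at h2
    have h3 : dst a b = 1 ∨ dst a b = 2 ∨ dst a b = 3 ∨ dst a b = 4 := by omega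
    rcases h3 with h3 | h3 | h3 | h3 <;> rw [h3] at hd
    · exact hd
    · exact htr 2 2 1 0 28 42 (by decide) (by decide) (by decide) (by decide +kernel)
        (by decide +kernel) (by decide +kernel) hd hd
    · exact htr 3 3 1 0 3 27 (by decide) (by decide) (by decide) (by decide +kernel)
        (by decide +kernel) (by decide +kernel) hd hd
    · exact htr 4 4 1 0 4 2 (by decide) (by decide) (by decide) (by decide +kernel)
        (by decide +kernel) (by decide +kernel) hd hd
  have h2 := htr 1 1 2 0 1 30 (by decide) (by decide) (by decide) (by decide +kernel)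
        (by decide +kernel) (by decide +kernel) h1 h1
  have h3 := htr 1 2 3 0 1 31 (by decide) (by decide) (by decide) (by decide +kernel)
        (by decide +kernel) (by decide +kernel) h1 h2
  have h4 := htr 1 3 4 0 1 4 (by decide) (by decide) (by decide) (by decide +kernel)
        (by decide +kernel) (by decide +kernel) h1 h3
  intro x y
  by_cases hxy : x = y
  · rw [hxy]
    exact hr y
  · have h5 := dst_range x y hxy
    rw [Finset.mem_Icc] at h5
    have h6 : dst x y = 1 ∨ dst x y = 2 ∨ dst x y = 3 ∨ dst x y = 4 := by omega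
    rcases h6 with h6 | h6 | h6 | h6
    · exact h1 x y hxy h6
    · exact h2 x y hxy h6
    · exact h3 x y hxy h6
    · exact h4 x y hxy h6

end Pool.Agent.T2h44.SY
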