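import Mathlib
import Pool.Agent.T2h44.SY.Base

/-!
# Powers of the graph and their automorphism groups
-/

set_option autoImplicit false

namespace Pool.Agent.T2h44.SY

/-- a transitive group which preserves no equivalence relation but equality and the universal one -/
structure Primitive {Ω : Type} (G : Subgroup (Equiv.Perm Ω)) : Prop where
  trans : ∀ x y : Ω, ∃ g ∈ G, g x = y
  prim : ∀ R : Ω → Ω → Prop, Equivalence R → (∀ g ∈ G, ∀ x y, R x y → R (g x) (g y)) →
    (∀ x y, R x y → x = y) ∨ ∀ x y, R x y

/-- the semigroup generated by the map `f` and the elements of `G` -/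
inductive Gen {Ω : Type} (f : Ω → Ω) (G : Subgroup (Equiv.Perm Ω)) : (Ω → Ω) → Prop
  | map : Gen f G f
  | perm (g : Equiv.Perm Ω) : g ∈ G → Gen f G g
  | comp (s t : Ω → Ω) : Gen f G s → Gen f G t → Gen f G (s ∘ t)

/-- the rank of a map: the size of its image -/
noncomputable def rank {Ω : Type} (s : Ω → Ω) : ℕ := (Set.range s).ncard

/-- the vertices of the `m`-th power -/
abbrev W (m : ℕ) : Type := Fin m → V

/-- adjacency in the `m`-th power: adjacent in some coordinate -/
def Adj {m : ℕ} (x y : W m) : Prop := ∃ i, adj (x i) (y i)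

theorem Adj_irrefl {m : ℕ} (x : W m) : ¬ Adj x x := fun ⟨_, h⟩ => adj_irrefl _ h

/-- the automorphism group of the `m`-th power -/
def G (m : ℕ) : Subgroup (Equiv.Perm (W m)) where
  carrier := {σ | ∀ x y, Adj x y ↔ Adj (σ x) (σ y)}
  mul_mem' := by
    intro σ τ hσ hτ x y
    exact (hτ x y).trans (hσ _ _)
  one_mem' := fun _ _ => Iff.rfl
  inv_mem' := by
    intro σ hσ x y
    have := hσ (σ⁻¹ x) (σ⁻¹ y)
    rw [app_inv, app_inv] at this
    exact this.symm

/-- automorphisms acting on the coordinates -/
def coord {m : ℕ} (τ : Fin m → Equiv.Perm V) : Equiv.Perm (W m) := Equiv.piCongrRight τ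

theorem coord_apply {m : ℕ} (τ : Fin m → Equiv.Perm V) (x : W m) (i : Fin m) :
    coord τ x i = τ i (x i) := rfl

theorem coord_mem {m : ℕ} (τ : Fin m → Equiv.Perm V) (h : ∀ i, IsAut (τ i)) : coord τ ∈ G m := by
  intro x y
  constructor
  · rintro ⟨i, hi⟩
    exact ⟨i, (h i _ _).1 hi⟩
  · rintro ⟨i, hi⟩
    exact ⟨i, (h i _ _).2 hi⟩

/-- permutations of the coordinates -/
def permC {m : ℕ} (π : Equiv.Perm (Fin m)) : Equiv.Perm (W m) := π.arrowCongr (Equiv.refl V)

theorem permC_apply {m : ℕ} (π : Equiv.Perm (Fin m)) (x : W m) (i : Fin m) :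
    permC π x i = x (π.symm i) := rfl

theorem permC_mem {m : ℕ} (π : Equiv.Perm (Fin m)) : permC π ∈ G m := by
  intro x y
  constructor
  · rintro ⟨i, hi⟩
    refine ⟨π i, ?_⟩
    rw [permC_apply, permC_apply, Equiv.symm_apply_apply]
    exact hi
  · rintro ⟨i, hi⟩
    exact ⟨π.symm i, hi⟩

theorem trans_G {m : ℕ} (x y : W m) : ∃ g ∈ G m, g x = y := by
  choose τ h1 h2 using fun i => exists_aut (x i) (y i)
  exact ⟨coord τ, coord_mem τ h1, funext h2⟩

theorem prim_G {m : ℕ} (R : W m → W m → Prop) (hR : Equivalence R)
    (hG : ∀ g ∈ G m, ∀ x y, R x y → R (g x) (g y)) {x y : W m} (hxy : x ≠ y) (h : R x y) :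
    ∀ u v, R u v := by
  classical
  obtain ⟨i, hi⟩ := Function.ne_iff.1 hxy
  obtain ⟨σ, h1, h2, h3⟩ := exists_move (x i) (y i) hi
  have hup : ∀ (σ : Equiv.Perm V) (z : W m) (a : V),
      coord (Function.update 1 i σ) (Function.update z i a) = Function.update z i (σ a) := by
    intro σ z a
    funext k
    rw [coord_apply]
    by_cases hk : k = i
    · subst hk
      simp
    · simp [Function.update_of_ne hk]
  have hmem : ∀ σ : Equiv.Perm V, IsAut σ → coord (Function.update 1 i σ) ∈ G m := by
    intro σ hσ
    refine coord_mem _ fun k => ?_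
    by_cases hk : k = i
    · subst hk
      simpa using hσ
    · simpa [Function.update_of_ne hk] using isAut_one
  have h4 : R x (Function.update y i (σ (y i))) := by
    have h5 := hG _ (hmem σ h1) x y h
    have e1 := hup σ x (x i)
    rw [Function.update_eq_self, h2, Function.update_eq_self] at e1
    have e2 := hup σ y (y i)
    rw [Function.update_eq_self] at e2
    rwa [e1, e2] at h5
  have h5 : R (Function.update y i (y i)) (Function.update y i (σ (y i))) := by
    rw [Function.update_eq_self]
    exact hR.trans (hR.symm h) h4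
  have hstep : ∀ τ : Equiv.Perm V, IsAut τ → ∀ a b, R (Function.update y i a)
      (Function.update y i b) → R (Function.update y i (τ a)) (Function.update y i (τ b)) := by
    intro τ hτ a b hab
    have h6 := hG _ (hmem τ hτ) _ _ hab
    rwa [hup, hup] at h6
  have hiff : ∀ τ : Equiv.Perm V, IsAut τ → ∀ a b, R (Function.update y i a)
      (Function.update y i b) ↔ R (Function.update y i (τ a)) (Function.update y i (τ b)) := by
    intro τ hτ a b
    refine ⟨hstep τ hτ a b, fun h7 => ?_⟩
    have h8 := hstep τ⁻¹ (isAut_inv hτ) _ _ h7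
    rwa [inv_app, inv_app] at h8
  have h6 : ∀ a b, R (Function.update y i a) (Function.update y i b) :=
    prim (fun a b => R (Function.update y i a) (Function.update y i b)) (fun a => hR.refl _)
      (fun a b c => hR.trans) (hiff pA aut_A) (hiff pB aut_B) (Ne.symm h3) h5
  -- all lines in direction `i`
  have h7 : ∀ (z : W m) (a b : V), R (Function.update z i a) (Function.update z i b) := by
    intro z a b
    choose τ t1 t2 using fun k => exists_aut (y k) (z k)
    have hτ : coord (Function.update τ i 1) ∈ G m := by
      refine coord_mem _ fun k => ?_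
      by_cases hk : k = i
      · subst hk
        simpa using isAut_one
      · simpa [Function.update_of_ne hk] using t1 k
    have he : ∀ a, coord (Function.update τ i 1) (Function.update y i a) =
        Function.update z i a := by
      intro a
      funext k
      rw [coord_apply]
      by_cases hk : k = i
      · subst hk
        simp
      · simp [Function.update_of_ne hk, t2]
    have h8 := hG _ hτ _ _ (h6 a b)
    rwa [he, he] at h8
  -- all lines
  have h8 : ∀ (j : Fin m) (z : W m) (a b : V),
      R (Function.update z j a) (Function.update z j b) := by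
    intro j z a b
    have he : ∀ a, permC (Equiv.swap i j) (Function.update (fun k => z (Equiv.swap i j k)) i a) =
        Function.update z j a := by
      intro a
      funext k
      rw [permC_apply, Equiv.symm_swap]
      by_cases hk : k = j
      · subst hk
        simp
      · have hk' : Equiv.swap i j k ≠ i := by
          intro h9
          apply hk
          have h10 := congrArg (Equiv.swap i j) h9
          rwa [Equiv.swap_apply_self, Equiv.swap_apply_left] at h10
        rw [Function.update_of_ne hk', Function.update_of_ne hk, Equiv.swap_apply_self]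
    have h9 := hG _ (permC_mem (Equiv.swap i j)) _ _ (h7 (fun k => z (Equiv.swap i j k)) a b)
    rwa [he, he] at h9
  intro u v
  have h9 : ∀ s : Finset (Fin m), R u (s.piecewise v u) := by
    intro s
    induction s using Finset.induction_on with
    | empty => rw [Finset.piecewise_empty]; exact hR.refl _
    | insert j s _ ih =>
      rw [Finset.piecewise_insert]
      refine hR.trans ih ?_
      have h10 := h8 j (s.piecewise v u) (s.piecewise v u j) (v j)
      rwa [Function.update_eq_self] at h10
  have h10 := h9 Finset.univ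
  rwa [Finset.piecewise_univ] at h10

theorem primitive_G (m : ℕ) : Primitive (G m) where
  trans := trans_G
  prim := by
    intro R hR hG
    by_cases h : ∀ x y, R x y → x = y
    · exact Or.inl h
    · push Not at h
      obtain ⟨x, y, h1, h2⟩ := h
      exact Or.inr (prim_G R hR hG h2 h1)

/-- the clique of the powers of the triangle -/
def K (m : ℕ) : Finset (W m) := Fintype.piFinset fun _ => tri

theorem card_K (m : ℕ) : (K m).card = 3 ^ m := by
  unfold K
  rw [Fintype.card_piFinset_const, card_tri]

theorem le_rank {m : ℕ} (s : W m → W m) (hs : ∀ x y, Adj x y → Adj (s x) (s y)) :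
    3 ^ m ≤ rank s := by
  have hinj : Set.InjOn s (K m : Set (W m)) := by
    intro x hx y hy hxy
    by_contra hne
    obtain ⟨i, hi⟩ := Function.ne_iff.1 hne
    rw [Finset.mem_coe] at hx hy
    unfold K at hx hy
    rw [Fintype.mem_piFinset] at hx hy
    have h1 : Adj x y := ⟨i, tri_adj _ (hx i) _ (hy i) hi⟩
    have h2 := hs x y h1
    rw [hxy] at h2
    exact Adj_irrefl _ h2
  calc 3 ^ m = (K m : Set (W m)).ncard := by rw [Set.ncard_coe_finset, card_K]
    _ = (s '' (K m : Set (W m))).ncard := hinj.ncard_image.symm
    _ ≤ rank s := Set.ncard_le_ncard (Set.image_subset_range _ _) (Set.toFinite _)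

/-- the maps -/
def fm (k : ℕ) (J : Finset (W k)) (x : W (k + 1)) : W (k + 1) :=
  Fin.cons (if (fun i => col (x (Fin.succ i))) ∈ J then fly (x 0) else col (x 0))
    (fun i => col (x (Fin.succ i)))

theorem fm_zero {k : ℕ} {J : Finset (W k)} (x : W (k + 1)) :
    fm k J x 0 = if (fun i => col (x (Fin.succ i))) ∈ J then fly (x 0) else col (x 0) := rfl

theorem fm_succ {k : ℕ} {J : Finset (W k)} (x : W (k + 1)) (i : Fin k) :
    fm k J x (Fin.succ i) = col (x (Fin.succ i)) := rfl

theorem fm_hom {k : ℕ} (J : Finset (W k)) (x y : W (k + 1)) (h : Adj x y) :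
    Adj (fm k J x) (fm k J y) := by
  obtain ⟨i, hi⟩ := h
  by_cases h : (fun i => col (x (Fin.succ i))) = (fun i => col (y (Fin.succ i)))
  · cases i using Fin.cases with
    | zero =>
      refine ⟨0, ?_⟩
      rw [fm_zero, fm_zero, h]
      split_ifs
      · exact fly_hom _ _ hi
      · exact col_hom _ _ hi
    | succ i =>
      exfalso
      have h1 := col_hom _ _ hi
      have h2 : col (x (Fin.succ i)) = col (y (Fin.succ i)) := congrFun h i
      rw [h2] at h1
      exact adj_irrefl _ h1
  · obtain ⟨l, hl⟩ := Function.ne_iff.1 h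
    exact ⟨Fin.succ l, tri_adj _ (col_mem _) _ (col_mem _) hl⟩

theorem gen_hom {k : ℕ} (J : Finset (W k)) (s : W (k + 1) → W (k + 1))
    (hs : Gen (fm k J) (G (k + 1)) s) : ∀ x y, Adj x y → Adj (s x) (s y) := by
  induction hs with
  | map => exact fm_hom J
  | perm g hg => exact fun x y h => (hg x y).1 h
  | comp s t _ _ h1 h2 => exact fun x y h => h1 _ _ (h2 _ _ h)

theorem rank_fm {k : ℕ} (J : Finset (W k)) (hJ : J ⊆ K k) :
    rank (fm k J) = 3 ^ (k + 1) + 2 * J.card := by
  classical
  let E : Finset (Σ _ : W k, V) := (K k).sigma fun t => if t ∈ J then but else tri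
  let g : (Σ _ : W k, V) → W (k + 1) := fun p => Fin.cons p.2 p.1
  have hg : Function.Injective g := by
    rintro ⟨t, b⟩ ⟨t', b'⟩ h
    have h1 := Fin.cons_inj.1 h
    obtain ⟨h2, h3⟩ := h1
    dsimp only at h2 h3
    rw [h2, h3]
  have hr : Set.range (fm k J) = (E.image g : Finset (W (k + 1))) := by
    ext y
    rw [Finset.coe_image, Set.mem_range, Set.mem_image]
    constructor
    · rintro ⟨x, rfl⟩
      refine ⟨⟨fun i => col (x (Fin.succ i)),
        if (fun i => col (x (Fin.succ i))) ∈ J then fly (x 0) else col (x 0)⟩, ?_, rfl⟩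
      rw [Finset.mem_coe, Finset.mem_sigma]
      refine ⟨?_, ?_⟩
      · unfold K
        rw [Fintype.mem_piFinset]
        exact fun i => col_mem _
      · dsimp only
        split_ifs
        · exact fly_mem _
        · exact col_mem _
    · rintro ⟨⟨t, b⟩, h, rfl⟩
      rw [Finset.mem_coe, Finset.mem_sigma] at h
      obtain ⟨h1, h2⟩ := h
      dsimp only at h1 h2
      unfold K at h1
      rw [Fintype.mem_piFinset] at h1
      have ht : (fun i => col ((g ⟨t, b⟩) (Fin.succ i))) = t := funext fun i => col_tri _ (h1 i)
      refine ⟨g ⟨t, b⟩, ?_⟩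
      funext i
      cases i using Fin.cases with
      | zero =>
        rw [fm_zero, ht]
        change (if t ∈ J then fly b else col b) = b
        split_ifs with h3
        · rw [if_pos h3] at h2
          exact fly_but b h2
        · rw [if_neg h3] at h2
          exact col_tri b h2
      | succ i =>
        rw [fm_succ]
        exact col_tri _ (h1 i)
  unfold rank
  rw [hr, Set.ncard_coe_finset, Finset.card_image_of_injective _ hg]
  rw [Finset.card_sigma]
  have h1 : ∀ t : W k, (if t ∈ J then but else tri).card = 3 + if t ∈ J then 2 else 0 := by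
    intro t
    split_ifs
    · exact card_but
    · exact card_tri
  rw [Finset.sum_congr rfl fun t _ => h1 t, Finset.sum_add_distrib, Finset.sum_const, card_K,
    Finset.sum_ite_mem, Finset.inter_eq_right.2 hJ, Finset.sum_const, smul_eq_mul, smul_eq_mul]
  ring

theorem exists_small {k : ℕ} (J : Finset (W k)) :
    ∃ s, Gen (fm k J) (G (k + 1)) s ∧ rank s = 3 ^ (k + 1) := by
  classical
  have hmem : coord (Function.update 1 0 pH) ∈ G (k + 1) := by
    refine coord_mem _ fun i => ?_
    by_cases hi : i = 0
    · subst hi
      simpa using aut_H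
    · simpa [Function.update_of_ne hi] using isAut_one
  have hs := Gen.comp _ _ (Gen.comp _ _ (Gen.map (f := fm k J) (G := G (k + 1)))
    (Gen.perm _ hmem)) Gen.map
  refine ⟨_, hs, le_antisymm ?_ (le_rank _ (gen_hom J _ hs))⟩
  rw [← card_K, ← Set.ncard_coe_finset]
  refine Set.ncard_le_ncard ?_ (Finset.finite_toSet _)
  rintro _ ⟨x, rfl⟩
  rw [Finset.mem_coe]
  unfold K
  rw [Fintype.mem_piFinset]
  set y := fm k J x with hy
  have hy1 : ∀ i : Fin k, col (y (Fin.succ i)) = y (Fin.succ i) := by
    intro i
    rw [hy, fm_succ]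
    exact col_tri _ (col_mem _)
  have hc : ∀ i : Fin k, coord (Function.update 1 0 pH) y (Fin.succ i) = y (Fin.succ i) := by
    intro i
    rw [coord_apply, Function.update_of_ne (Fin.succ_ne_zero i)]
    rfl
  intro i
  change fm k J (coord (Function.update 1 0 pH) y) i ∈ tri
  cases i using Fin.cases with
  | zero =>
    rw [fm_zero]
    have e1 : (fun i => col (coord (Function.update 1 0 pH) y (Fin.succ i))) =
        fun i => col (x (Fin.succ i)) := by
      funext i
      rw [hc, hy1, hy, fm_succ]
    have e2 : coord (Function.update 1 0 pH) y 0 = pH (y 0) := by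
      rw [coord_apply, Function.update_self]
    rw [e1, e2]
    split_ifs with h
    · apply fly_H
      rw [hy, fm_zero, if_pos h]
      exact fly_mem _
    · exact col_mem _
  | succ i =>
    rw [fm_succ]
    exact col_mem _

end Pool.Agent.T2h44.SY
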